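import Pool.Agent.Lib.MP_54d165_co.GR.M3
import Pool.Agent.Lib.MP_54d165_co.GR.U2
import Pool.Agent.Lib.MP_54d165_co.GR.U3

/-!
The growth of the largest Newton covering number `M(d)`: `2 ^ (d / 2) / d ^ 7 ≤ M(d)` for large `d` and
`M(d) ≤ 8 d log (d + 1) 2 ^ d`, with matching bounds up to a power of `d` for the bodies between two concentric balls of
ratio less than or equal to `√2`.
-/

namespace Pool.Agent.Results.MP_54d165_co.Growth

open Newton54G Metric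

/-- Throughout, `n` congruent copies of `C` cover a neighbourhood of `C` means `∃ U, IsOpen U ∧ C ⊆ U ∧ U ⊆ ⋃ i, g i '' C` with
isometries `g i`.

Upper bound for `M(d)`: every convex body `C` in dimension `d ≥ 1` has a neighbourhood covered by at most
`8 d log (d + 1) 2 ^ d` congruent copies of `C`.
Upper bound for bodies between two balls: for `1 / 2 ≤ s < 1`, in all large dimensions every body between the
ball of radius `s` and the ball of radius `1` has a neighbourhood covered by at most `d ^ 4 (1 / s) ^ d` congruent copies.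
Lower bound (with `s = √(1 / 2)` it gives `M(d) ≥ 2 ^ (d / 2) / d ^ 7` for large `d`): for `√(1 / 2) ≤ s < 1`, in all large
dimensions there is a centrally symmetric convex body between the two balls, no neighbourhood of which is covered by fewer
than `(1 / s) ^ d / d ^ 7` congruent copies. -/
theorem result :
    (∀ d : ℕ, 1 ≤ d → ∀ C : Set (EuclideanSpace ℝ (Fin d)), Convex ℝ C → IsCompact C →
      (interior C).Nonempty →
        ∃ (n : ℕ) (g : Fin n → (EuclideanSpace ℝ (Fin d) ≃ᵢ EuclideanSpace ℝ (Fin d))),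
          (∃ U : Set (EuclideanSpace ℝ (Fin d)), IsOpen U ∧ C ⊆ U ∧ U ⊆ ⋃ i, g i '' C) ∧
            (n : ℝ) ≤ 8 * d * Real.log (d + 1) * 2 ^ d) ∧
    (∀ s : ℝ, 1 / 2 ≤ s → s < 1 → ∃ d0 : ℕ, ∀ d : ℕ, d0 ≤ d →
      ∀ C : Set (EuclideanSpace ℝ (Fin d)), closedBall 0 s ⊆ C → C ⊆ closedBall 0 1 →
        ∃ (n : ℕ) (g : Fin n → (EuclideanSpace ℝ (Fin d) ≃ᵢ EuclideanSpace ℝ (Fin d))),
          (∃ U : Set (EuclideanSpace ℝ (Fin d)), IsOpen U ∧ C ⊆ U ∧ U ⊆ ⋃ i, g i '' C) ∧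
            (n : ℝ) ≤ (d : ℝ) ^ 4 * (1 / s) ^ d) ∧
    (∀ s : ℝ, √(1 / 2) ≤ s → s < 1 → ∃ d0 : ℕ, ∀ d : ℕ, d0 ≤ d →
      ∃ C : Set (EuclideanSpace ℝ (Fin d)), Convex ℝ C ∧ IsCompact C ∧ (∀ x ∈ C, -x ∈ C) ∧
        closedBall 0 s ⊆ C ∧ C ⊆ closedBall 0 1 ∧
        ∀ (n : ℕ) (g : Fin n → (EuclideanSpace ℝ (Fin d) ≃ᵢ EuclideanSpace ℝ (Fin d))),
          (∃ U : Set (EuclideanSpace ℝ (Fin d)), IsOpen U ∧ C ⊆ U ∧ U ⊆ ⋃ i, g i '' C) →
            (1 / s) ^ d / (d : ℝ) ^ 7 ≤ n) := by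
  refine ⟨?_, upper_poly, lower_poly⟩
  intro d hd C hC hCc hCi
  obtain ⟨n, lam, del, hl, hdel, hsum, hn, hnle⟩ := numbers_upper d hd
  obtain ⟨x, hx⟩ := exists_cover hC hCc hCi hl hdel n hn
  obtain ⟨g, U, hU, hCU, hcov⟩ := cover_of_points hC hCi (by linarith) hsum n x hx
  exact ⟨n, g, ⟨U, hU, hCU, hcov⟩, hnle⟩

end Pool.Agent.Results.MP_54d165_co.Growth
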