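import Pool.Agent.Lib.MP_54d165_co.Extremal

/-!
# MP_54d165_co, Q1 in the plane: `M(2) = 3` and families of extremal bodies

The plane is `ℂ` with its Euclidean metric.  Every convex body in the plane has Newton covering
number at most three, and the bodies of each of the following four families have the value three:
constant width; Borsuk number three; the difference body is a regular polygon with `2 k` vertices;
regular polygons.
-/

open Set Newton54D
open scoped RealInnerProductSpace

namespace Pool.Agent.Results.MP_54d165_co.PlaneExtremal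

private theorem not_cov_width {C : Set ℂ} (hcomp : IsCompact C) (hint : (interior C).Nonempty)
    {w : ℝ} (hw : Newton54S.CW C w) : ¬ Newton54S.Cov C 2 := by
  intro h2
  have h := Newton54S.lower hcomp (hint.mono interior_subset) hw
    (by rw [Complex.finrank_real_complex]; norm_num) h2
  rw [Complex.finrank_real_complex] at h
  omega

theorem result :
    -- the maximum of the Newton covering numbers of planar convex bodies is three
    IsGreatest {N : ℕ | ∃ C : Set ℂ, Convex ℝ C ∧ IsCompact C ∧ (interior C).Nonempty ∧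
      IsLeast {k : ℕ | ∃ g : Fin k → (ℂ ≃ᵢ ℂ), ∃ U : Set ℂ,
        IsOpen U ∧ C ⊆ U ∧ U ⊆ ⋃ i, g i '' C} N} 3 ∧
    -- four families of extremal bodies
    (∀ C : Set ℂ, Convex ℝ C → IsCompact C → (interior C).Nonempty →
      -- constant width
      ((∃ w : ℝ, ∀ u : ℂ, ‖u‖ = 1 →
          sSup ((fun y => ⟪u, y⟫) '' C) - sInf ((fun y => ⟪u, y⟫) '' C) = w) ∨
      -- not a union of two sets of smaller diameter
        (¬ ∃ A B : Set ℂ, C = A ∪ B ∧ Metric.diam A < Metric.diam C ∧
          Metric.diam B < Metric.diam C) ∨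
      -- the difference body is a regular polygon
        (∃ (k : ℕ) (u : ℂ), 2 ≤ k ∧ {z | ∃ x ∈ C, ∃ y ∈ C, z = x - y} =
          convexHull ℝ (range fun j : Fin (2 * k) =>
            u * Complex.exp (Real.pi * Complex.I * j / k))) ∨
      -- the body is a regular polygon
        (∃ (n : ℕ) (c u : ℂ), 3 ≤ n ∧ u ≠ 0 ∧ C = convexHull ℝ (range fun j : Fin n =>
          c + u * Complex.exp (2 * Real.pi * Complex.I * j / n)))) →
      IsLeast {k : ℕ | ∃ g : Fin k → (ℂ ≃ᵢ ℂ), ∃ U : Set ℂ,
        IsOpen U ∧ C ⊆ U ∧ U ⊆ ⋃ i, g i '' C} 3) := by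
  refine ⟨⟨?_, ?_⟩, ?_⟩
  · -- the disc
    have hcomp : IsCompact (Metric.closedBall (0 : ℂ) 1) := isCompact_closedBall 0 1
    have hint : (interior (Metric.closedBall (0 : ℂ) 1)).Nonempty :=
      ⟨0, Metric.ball_subset_interior_closedBall (Metric.mem_ball_self one_pos)⟩
    refine ⟨Metric.closedBall 0 1, convex_closedBall 0 1, hcomp, hint,
      least_three (convex_closedBall 0 1) hcomp hint (not_cov_width (w := 2) hcomp hint ?_)⟩
    intro u hu
    have hs : ∀ v : ℂ, ‖v‖ = 1 → Newton54S.supp (Metric.closedBall (0 : ℂ) 1) v = 1 := by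
      intro v hv
      have h1 := Newton54S.supp_eq hcomp v (y := v) (by simp [hv]) (by
        intro z hz
        rw [real_inner_self_eq_norm_sq, hv]
        have h2 := real_inner_le_norm v z
        rw [hv] at h2
        have h3 : ‖z‖ ≤ 1 := by simpa using hz
        linarith)
      rw [h1, real_inner_self_eq_norm_sq, hv]
      norm_num
    rw [Newton54S.width_eq hcomp (hint.mono interior_subset), hs u hu,
      hs (-u) (by rw [norm_neg]; exact hu)]
    norm_num
  · -- the upper bound
    rintro N ⟨C, hconv, hcomp, hint, hN⟩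
    exact hN.2 (Newton54S.cov_three Complex.finrank_real_complex hconv hcomp hint)
  · -- the sufficient conditions
    rintro C hconv hcomp hint h
    refine least_three hconv hcomp hint ?_
    rcases h with ⟨w, hw⟩ | h | ⟨k, u, hk, hd⟩ | ⟨n, c, u, hn, hu, rfl⟩
    · exact not_cov_width hcomp hint hw
    · exact not_cov_borsuk hcomp hint h
    · refine not_cov_diff' hk ?_ hconv hcomp hd
      rintro rfl
      obtain ⟨x0, hx0⟩ := hint
      obtain ⟨ε, hε, hball⟩ := Metric.isOpen_iff.1 isOpen_interior x0 hx0
      have h1 : x0 + ((ε / 2 : ℝ) : ℂ) ∈ C := by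
        refine interior_subset (hball ?_)
        rw [Metric.mem_ball, dist_eq_norm, add_sub_cancel_left, Complex.norm_real,
          Real.norm_of_nonneg (by linarith)]
        linarith
      have h2 : ((ε / 2 : ℝ) : ℂ) ∈ {z | ∃ x ∈ C, ∃ y ∈ C, z = x - y} :=
        ⟨_, h1, x0, interior_subset hx0, by ring⟩
      rw [hd] at h2
      have h3 : convexHull ℝ (range fun j : Fin (2 * k) =>
          (0 : ℂ) * Complex.exp (Real.pi * Complex.I * j / k)) ⊆ {0} := by
        refine convexHull_min ?_ (convex_singleton 0)
        rintro _ ⟨j, rfl⟩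
        simp
      have h4 : ((ε / 2 : ℝ) : ℂ) = 0 := h3 h2
      have h5 : ε / 2 = 0 := by exact_mod_cast h4
      linarith
    · exact not_cov_regular hn hu

end Pool.Agent.Results.MP_54d165_co.PlaneExtremal
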