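import Pool.Agent.Lib.MP_54d165_co.PS.M1

/-!
# MP_54d165_co, Q1 in the plane: the centrally symmetric extremal bodies

The plane is `ℂ` with its Euclidean metric.  A centrally symmetric planar convex body has Newton
covering number two or three, and three exactly for the discs and the regular polygons with `2 k`
vertices, `k ≥ 2`.
-/

namespace Pool.Agent.Results.MP_54d165_co.PlaneSymmetric

open Set
open scoped RealInnerProductSpace

private theorem not_cov_disc {c : ℂ} {r : ℝ} (hr : 0 ≤ r) :
    ¬ Newton54S.Cov (Metric.closedBall c r) 2 := by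
  intro hcov
  have hcomp : IsCompact (Metric.closedBall c r) := isCompact_closedBall c r
  have hne : (Metric.closedBall c r).Nonempty := ⟨c, Metric.mem_closedBall_self hr⟩
  have hs : ∀ v : ℂ, ‖v‖ = 1 →
      Newton54S.supp (Metric.closedBall c r) v = ⟪v, c⟫ + r := by
    intro v hv
    have h1 := Newton54S.supp_eq hcomp v (y := c + r • v) (by
      rw [Metric.mem_closedBall, dist_eq_norm, add_sub_cancel_left, norm_smul, hv, mul_one,
        Real.norm_of_nonneg hr]) (by
      intro z hz
      rw [inner_add_right, real_inner_smul_right, real_inner_self_eq_norm_sq, hv]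
      have h2 := real_inner_le_norm v (z - c)
      rw [hv, inner_sub_right] at h2
      have h3 : ‖z - c‖ ≤ r := by
        rw [← dist_eq_norm]
        exact hz
      linarith)
    rw [h1, inner_add_right, real_inner_smul_right, real_inner_self_eq_norm_sq, hv]
    ring
  have hw : Newton54S.CW (Metric.closedBall c r) (2 * r) := by
    intro v hv
    rw [Newton54S.width_eq hcomp hne, hs v hv, hs (-v) (by rw [norm_neg]; exact hv),
      inner_neg_left]
    ring
  have h := Newton54S.lower hcomp hne hw (by rw [Complex.finrank_real_complex]; norm_num) hcov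
  rw [Complex.finrank_real_complex] at h
  omega

private theorem poly_image (k : ℕ) (c u : ℂ) : (fun x => u * x + c) '' Newton54P.poly k =
    convexHull ℝ (range fun j : Fin (2 * k) =>
      c + u * Complex.exp (Real.pi * Complex.I * j / k)) := by
  have hlin : IsLinearMap ℝ fun x : ℂ => u * x := by
    refine ⟨fun x y => mul_add u x y, fun a x => ?_⟩
    simp only [Complex.real_smul]
    ring
  have h1 : (fun x => u * x + c) = (fun x => x + c) ∘ fun x => u * x := rfl
  rw [h1, image_comp, Newton54P.poly, hlin.image_convexHull]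
  have h2 : ∀ S : Set ℂ, (fun x => x + c) '' convexHull ℝ S =
      convexHull ℝ ((fun x => x + c) '' S) := by
    intro S
    have h3 := (AffineMap.const ℝ ℂ c + AffineMap.id ℝ ℂ : ℂ →ᵃ[ℝ] ℂ).image_convexHull S
    have h4 : ⇑(AffineMap.const ℝ ℂ c + AffineMap.id ℝ ℂ : ℂ →ᵃ[ℝ] ℂ) = fun x => x + c := by
      funext x
      simp [add_comm]
    rw [h4] at h3
    exact h3
  rw [h2, ← range_comp, ← range_comp]
  congr 2
  funext j
  simp only [Function.comp_apply]
  rw [Newton54P.uv_eq_exp, add_comm]
  congr 3
  push_cast
  ring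

theorem result : ∀ C : Set ℂ, Convex ℝ C → IsCompact C → (interior C).Nonempty →
    (∃ c : ℂ, ∀ x ∈ C, 2 * c - x ∈ C) →
    ∃ N : ℕ, IsLeast {k : ℕ | ∃ g : Fin k → (ℂ ≃ᵢ ℂ), ∃ U : Set ℂ,
        IsOpen U ∧ C ⊆ U ∧ U ⊆ ⋃ i, g i '' C} N ∧
      (N = 2 ∨ N = 3) ∧
      (N = 3 ↔ (∃ (c : ℂ) (r : ℝ), C = Metric.closedBall c r) ∨
        ∃ (k : ℕ) (c u : ℂ), 2 ≤ k ∧ C = convexHull ℝ (range fun j : Fin (2 * k) =>
          c + u * Complex.exp (Real.pi * Complex.I * j / k))) := by
  classical
  rintro C hconv hcomp hint ⟨c, hsym⟩
  have h3 : Newton54S.Cov C 3 :=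
    Newton54S.cov_three Complex.finrank_real_complex hconv hcomp hint
  have hge : ∀ k : ℕ, Newton54S.Cov C k → 2 ≤ k := fun k hk =>
    Newton54P.cov_ge_two hcomp hint hk
  -- the extremal bodies
  have hiff : ¬ Newton54S.Cov C 2 ↔ (∃ (c : ℂ) (r : ℝ), C = Metric.closedBall c r) ∨
        ∃ (k : ℕ) (c u : ℂ), 2 ≤ k ∧ C = convexHull ℝ (range fun j : Fin (2 * k) =>
          c + u * Complex.exp (Real.pi * Complex.I * j / k)) := by
    constructor
    · intro hcov
      set D : Set ℂ := (fun x => 1 * x + -c) '' C with hD
      have hDcov : ¬ Newton54S.Cov D 2 := fun h => hcov (Newton54P.cov_mul one_ne_zero _ h)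
      have hDconv : Convex ℝ D := by
        rintro _ ⟨x, hx, rfl⟩ _ ⟨y, hy, rfl⟩ a b ha hb hab
        refine ⟨a • x + b • y, hconv hx hy ha hb hab, ?_⟩
        have hab' : (a : ℂ) + b = 1 := by exact_mod_cast hab
        simp only [Complex.real_smul]
        linear_combination c * hab'
      have hDint : (interior D).Nonempty := by
        have h := (Newton54P.simHomeo 1 one_ne_zero (-c)).image_interior C
        have h2 : (interior ((Newton54P.simHomeo 1 one_ne_zero (-c)) '' C)).Nonempty := by
          rw [← h]
          exact hint.image _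
        exact h2
      have hDsym : ∀ x ∈ D, -x ∈ D := by
        rintro _ ⟨x, hx, rfl⟩
        exact ⟨2 * c - x, hsym x hx, by simp only; ring⟩
      have hCD : ∀ E : Set ℂ, D = E → C = (fun x => x + c) '' E := by
        rintro E rfl
        rw [hD, ← image_comp]
        have : ((fun x => x + c) ∘ fun x => 1 * x + -c) = (id : ℂ → ℂ) := by
          funext x
          simp
        rw [this, image_id]
      rcases Newton54P.classify_zero hDconv (hcomp.image (by fun_prop)) hDint hDsym hDcov with
        ⟨r, hr⟩ | ⟨k, u, hk, hu, hP⟩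
      · refine Or.inl ⟨c, r, ?_⟩
        rw [hCD _ hr]
        ext x
        constructor
        · rintro ⟨y, hy, rfl⟩
          rw [mem_closedBall_zero_iff] at hy
          rw [Metric.mem_closedBall, dist_eq_norm, add_sub_cancel_right]
          exact hy
        · intro hx
          refine ⟨x - c, ?_, sub_add_cancel x c⟩
          rw [mem_closedBall_zero_iff, ← dist_eq_norm]
          exact hx
      · refine Or.inr ⟨k, c, u, hk, ?_⟩
        rw [hCD _ hP, ← poly_image, ← image_comp]
        congr 1
        funext x
        simp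
    · rintro (⟨c', r, rfl⟩ | ⟨k, c', u, hk, hC⟩) hcov
      · have hr : 0 ≤ r := by
          by_contra hneg
          push Not at hneg
          rw [Metric.closedBall_eq_empty.2 hneg] at hint
          simp at hint
        exact not_cov_disc hr hcov
      · rw [← poly_image] at hC
        have hu : u ≠ 0 := by
          rintro rfl
          have h5 : C ⊆ {c'} := by
            rw [hC]
            rintro _ ⟨x, -, rfl⟩
            simp
          obtain ⟨z, hz⟩ := hint
          obtain ⟨y, hy, hlt⟩ := Newton54P.lt_of_mem_int hz 0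
          have e1 : y = c' := h5 hy
          have e2 : z = c' := h5 (interior_subset hz)
          rw [e1, e2] at hlt
          exact lt_irrefl _ hlt
        rw [hC] at hcov
        exact Newton54P.not_cov_poly hk (Newton54P.cov_mul hu c' hcov)
  by_cases hcov : Newton54S.Cov C 2
  · refine ⟨2, ⟨hcov, fun k hk => hge k hk⟩, Or.inl rfl, ?_⟩
    rw [← hiff]
    constructor
    · intro h
      omega
    · intro h
      exact absurd hcov h
  · refine ⟨3, ⟨h3, fun k hk => ?_⟩, Or.inr rfl, ?_⟩
    · have h5 := hge k hk
      rcases Nat.lt_or_ge 2 k with h6 | h6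
      · exact h6
      · exfalso
        have : k = 2 := by omega
        subst this
        exact hcov hk
    · rw [← hiff]
      exact ⟨fun _ => hcov, fun _ => rfl⟩

end Pool.Agent.Results.MP_54d165_co.PlaneSymmetric
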