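import Pool.Agent.Lib.MP_54d165_co.Generic

/-!
# MP_54d165_co, Q1 for smooth convex bodies and the bodies near them, in every dimension

For a smooth convex body `C` in `ℝ ^ d` the Newton covering number satisfies `N*(C) ≤ d + 1`, with
equality exactly for the bodies of constant width, and `N*(C') ≤ N*(C)` for all convex bodies `C'`,
smooth or not, which are close enough to `C`.
-/

namespace Pool.Agent.Results.MP_54d165_co.SmoothBodies

open Set
open scoped RealInnerProductSpace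

theorem result (d : ℕ) (hd : 1 ≤ d) (C : Set (EuclideanSpace ℝ (Fin d)))
    (hconv : Convex ℝ C) (hcomp : IsCompact C) (hint : (interior C).Nonempty)
    -- every boundary point has exactly one outer unit normal
    (hs : ∀ x ∈ frontier C, ∀ m n : EuclideanSpace ℝ (Fin d), ‖m‖ = 1 → ‖n‖ = 1 →
      (∀ y ∈ C, ⟪m, y⟫ ≤ ⟪m, x⟫) → (∀ y ∈ C, ⟪n, y⟫ ≤ ⟪n, x⟫) → m = n) :
    ∃ N : ℕ,
      IsLeast {k : ℕ | ∃ g : Fin k → (EuclideanSpace ℝ (Fin d) ≃ᵢ EuclideanSpace ℝ (Fin d)),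
        ∃ U : Set (EuclideanSpace ℝ (Fin d)), IsOpen U ∧ C ⊆ U ∧ U ⊆ ⋃ i, g i '' C} N ∧
      N ≤ d + 1 ∧
      (N = d + 1 ↔ ∃ w : ℝ, ∀ u : EuclideanSpace ℝ (Fin d), ‖u‖ = 1 →
        sSup ((fun y => ⟪u, y⟫) '' C) - sInf ((fun y => ⟪u, y⟫) '' C) = w) ∧
      -- all convex bodies near `C` are covered by `N` copies too
      ∃ δ : ℝ, 0 < δ ∧ ∀ C' : Set (EuclideanSpace ℝ (Fin d)), Convex ℝ C' → IsCompact C' →
        C'.Nonempty → Metric.hausdorffDist C C' < δ →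
        ∃ g : Fin N → (EuclideanSpace ℝ (Fin d) ≃ᵢ EuclideanSpace ℝ (Fin d)),
          ∃ U : Set (EuclideanSpace ℝ (Fin d)), IsOpen U ∧ C' ⊆ U ∧ U ⊆ ⋃ i, g i '' C' := by
  have hf : Module.finrank ℝ (EuclideanSpace ℝ (Fin d)) = d := finrank_euclideanSpace_fin
  have hs' : Newton54S.Smooth C := fun x hx m n hm hn => hs x hx m n hm.1 hn.1 hm.2 hn.2
  have h := Newton54S.smooth_main (by rw [hf]; exact hd) hconv hcomp hint hs'
  rw [hf] at h
  obtain ⟨N, h1, h2, h3⟩ := h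
  exact ⟨N, h1, h2, h3, Newton54S.cov_open hconv hcomp hint h1.1⟩

end Pool.Agent.Results.MP_54d165_co.SmoothBodies
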